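import Pool.Agent.T2H04.LC.Main
import Pool.Agent.T2H04.LC.Spec
import Pool.Agent.T2H04.LC.OD1
import Pool.Agent.T2H04.LC.OD2
import Pool.Agent.T2H04.LC.OD3
import Pool.Agent.T2H04.LC.OD4
import Pool.Agent.T2H04.LC.SLI
import Pool.Agent.T2H04.LC.V1
import Pool.Agent.T2H04.LC.LIN
import Pool.Agent.T2H04.LC.ADM
import Pool.Agent.T2H04.LC.GE
import Pool.Agent.T2H04.LC.GEO2
import Pool.Agent.T2H04.LC.CV
import Pool.Agent.T2H04.LC.YYC
import Pool.Agent.T2H04.LC.R1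
import Pool.Agent.T2H04.LC.R2
import Pool.Agent.T2H04.LC.TI
import Pool.Agent.T2H04.LC.HOL
import Pool.Agent.T2H04.LC.REG
import Pool.Agent.T2H04.LC.SAB
import Pool.Agent.T2H04.LC.SPB
import Pool.Agent.T2H04.LC.SPD
import Pool.Agent.T2H04.LC.CO1
import Pool.Agent.T2H04.LC.CO2
import Pool.Agent.T2H04.LC.CO
import Pool.Agent.T2H04.LC.CORE

/-!
# Local magnetic fields and spectral stability of leaky curves

The answer to Q1 is yes: for every `α > 0`, every curvature and every local magnetic field, regular or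
Aharonov-Bohm, the leaky curves `Γ_ε` with small `ε` have no spectrum below `- α² / 4`.
-/

open MeasureTheory Set Filter Topology

open Pool.Agent.T2H04.LC (AB crv curl form L2 Generated InResolvent)

namespace Pool.Agent.Results.MP_60200f_mp.LocalMagneticStability

/-- A local magnetic field, given by a vector potential `A` and its set `P` of singular points: either `A` is `C¹`
and its field `curl A = ∂₁ A₂ - ∂₂ A₁` is not identically zero, or `A` is the Aharonov-Bohm potential of a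
non-integer flux `Φ` (in units of `2 π`) at a point `p` outside the line `ℝ × {0}`. -/
inductive LocalField : (ℝ × ℝ → ℝ × ℝ) → Set (ℝ × ℝ) → Prop
  | regular (A : ℝ × ℝ → ℝ × ℝ) (hA : ContDiff ℝ 1 A) (z : ℝ × ℝ) (hz : curl A z ≠ 0) : LocalField A ∅
  | singular (Φ : ℝ) (hΦ : ∀ n : ℤ, Φ ≠ n) (p : ℝ × ℝ) (hp : p.2 ≠ 0) : LocalField (AB Φ p) {p}

/-- The form core: `C¹` functions with compact support contained in `ℝ² ∖ P`. -/
def core (P : Set (ℝ × ℝ)) : Set (ℝ × ℝ → ℂ) :=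
  {u | ContDiff ℝ 1 u ∧ HasCompactSupport u ∧ ∀ p ∈ P, p ∉ tsupport u}

theorem memLp {P : Set (ℝ × ℝ)} {u : ℝ × ℝ → ℂ} (hu : u ∈ core P) : MemLp u 2 volume :=
  hu.1.continuous.memLp_of_hasCompactSupport hu.2.1

open Pool.Agent.T2H04.LC in
/-- **Spectral stability of leaky curves in a local magnetic field.** For every `α > 0`, every curvature `γ` and
every local magnetic field there is `ε₀ > 0` such that for all `|ε| < ε₀` the form of
`(-i ∇ - A)² - α δ(· - Γ_ε)` is at least `- (α² / 4) ‖u‖²` on its core, and every self-adjoint operator generated by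
this form has no spectrum below `- α² / 4`. -/
theorem result (α : ℝ) (hα : 0 < α) (γ : ℝ → ℝ) (hγ : Continuous γ) (hγ' : HasCompactSupport γ)
    (A : ℝ × ℝ → ℝ × ℝ) (P : Set (ℝ × ℝ)) (hA : LocalField A P) :
    ∃ ε₀ : ℝ, 0 < ε₀ ∧ ∀ ε : ℝ, |ε| < ε₀ →
      (∀ u ∈ core P, -(α ^ 2 / 4) * (∫ z, ‖u z‖ ^ 2) ≤ form α A (crv γ ε) u) ∧
      ∀ H : L2 →ₗ.[ℂ] L2, Generated (form α A (crv γ ε)) (core P) H →
        ∀ μ : ℝ, μ < -(α ^ 2 / 4) → InResolvent H μ := by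
  have hOD2 := pOD2 pOD1
  have hCV := pCV pGEO2
  have hYYC := pYYC pLIN
  have hCO1 := pCO1 (pHOL pLIN pOD1) pGEO2 hCV hYYC pLIN
  have hCO2 := pCO2 (pSPB pLIN hOD2) (pV1 hOD2) pGEO2 hCV hYYC pLIN
  have hCO := pCO hCO1 hCO2 (pSPD pLIN hOD2) pGEO2 hYYC
  have hCORE := pCORE (pSLI hOD2 pOD3 pOD4) (pR1 pLIN pOD3 pGEO2 hCV hYYC) (pR2 pLIN pGEO2)
    (pTI pLIN hOD2 pGEO2) hCO pGEO2 hYYC pLIN
  have hadm : ∀ u ∈ core P, Adm A u := by
    intro u hu
    cases hA with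
    | regular A hA z hz => exact (pADM u hu.1 hu.2.1).1 A hA
    | singular Φ hΦ p hp => exact (pADM u hu.1 hu.2.1).2 Φ p (hu.2.2 p rfl)
  obtain ⟨x1, x2, y1, y2, l1, l2, c, hH, hy⟩ :
      ∃ x1 x2 y1 y2 l1 l2 c : ℝ, Hol A x1 x2 y1 y2 l1 l2 c ∧ (0 < y1 ∨ y2 + l2 < 0) := by
    cases hA with
    | regular A hA z hz => exact pREG A hA ⟨z, hz⟩
    | singular Φ hΦ p hp => exact pSAB Φ hΦ p hp
  obtain ⟨ε₀, h0, h1⟩ := pMAIN pLIN pGE hCORE α hα γ hγ hγ' A x1 x2 y1 y2 l1 l2 c hH hy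
  refine ⟨ε₀, h0, fun ε hε => ?_⟩
  have h2 : ∀ u ∈ core P, -(α ^ 2 / 4) * (∫ z, ‖u z‖ ^ 2) ≤ form α A (crv γ ε) u :=
    fun u hu => h1 ε hε u (hadm u hu)
  exact ⟨h2, fun H hH μ hμ => noSpectrum _ _ (fun v hv => memLp hv) _ h2 H hH μ hμ⟩

end Pool.Agent.Results.MP_60200f_mp.LocalMagneticStability
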